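import Pool.Agent.SGP.Stmts

/-!
# Squad SGY (MP_41797f_co): planar graphs and apex-outerplanar graphs, definitions

THEOREM Y.  `G₁` planar on `n` vertices, `G₂` a graph on `n` vertices with a vertex `v` such that
`G₂ - v` is outerplanar.  Then `G₁` and `G₂` have straight-line crossing-free drawings on one set of
`n` points.
-/

noncomputable section

namespace Pool.Agent.SGY

open Pool.Agent.SGE Pool.Agent.SGP

/-! ## Relations -/

/-- the edges without end in `U` -/
def offE {V : Type} (E : V → V → Prop) (U : Set V) : V → V → Prop :=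
  fun x y => E x y ∧ x ∉ U ∧ y ∉ U

/-- the faces without vertex in `U` -/
def offF {V : Type} (F : V → V → V → Prop) (U : Set V) : V → V → V → Prop :=
  fun x y z => F x y z ∧ x ∉ U ∧ y ∉ U ∧ z ∉ U

/-- the edges with both ends in `U` -/
def onE {V : Type} (E : V → V → Prop) (U : Set V) : V → V → Prop :=
  fun x y => E x y ∧ x ∈ U ∧ y ∈ U

/-- the faces with all vertices in `U` -/
def onF {V : Type} (F : V → V → V → Prop) (U : Set V) : V → V → V → Prop :=
  fun x y z => F x y z ∧ x ∈ U ∧ y ∈ U ∧ z ∈ U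

/-- at least two of `x, y, z` are in `K` -/
def Two {V : Type} (K : Set V) (x y z : V) : Prop :=
  (x ∈ K ∧ y ∈ K) ∨ (y ∈ K ∧ z ∈ K) ∨ (z ∈ K ∧ x ∈ K)

open Classical in
/-- `s` is renamed to `t` -/
def ren {V : Type} (s t x : V) : V := if x = s then t else x

open Classical in
/-- all elements of `K` are renamed to `c` -/
def th1 {V : Type} (c : V) (K : Set V) (x : V) : V := if x ∈ K then c else x

open Classical in
/-- all elements except `K`, `a`, `c` are renamed to `b` -/
def th2 {V : Type} (a b c : V) (K : Set V) (x : V) : V := if x ∈ K ∨ x = a ∨ x = c then x else b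

/-! ## The decomposition of a triangulated triangle -/

/-- The first state of the decomposition.  `a :: s :: (M ++ w :: Q)` are the neighbours of the corner
`c` (from `a` to `b`), `w` is the last one which is adjacent to `s`, `U` is the set of the vertices
strictly inside the cycle `c s w` (`U` contains `M`), `a :: (mid ++ [w])` are the other neighbours of
`s`. -/
structure Pre {V : Type} [Fintype V] (a b c : V) (E : V → V → Prop) (F : V → V → V → Prop)
    (s w : V) (M Q mid : List V) (U : Set V) : Prop where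
  nt : NT a b [a, c, b] E F
  nt1 : NT a b (a :: s :: (M ++ w :: Q)) (rE E c) (rF F c)
  nc : ∀ x, E c x ↔ x ∈ a :: s :: (M ++ w :: Q)
  ch : (a :: s :: (M ++ w :: Q)).IsChain (fun x y => F x y c)
  fc : ∀ x y, F x y c → Con (a :: s :: (M ++ w :: Q)) x y
  sw : E s w
  sq : ∀ x ∈ Q, ¬ E s x
  sc : s ≠ c
  wc : w ≠ c
  sb : s ≠ b
  uM : ∀ x ∈ M, x ∈ U
  uo : ∀ x ∈ a :: s :: w :: Q, x ∉ U
  uc : c ∉ U
  ur : ∀ x ∈ U, Rel E x
  ucl : ∀ x ∈ U, ∀ y, E x y → y ∈ U ∨ y = s ∨ y = w ∨ y = c
  nt2 : NT a b (a :: s :: w :: Q) (offE (rE E c) U) (offF (rF F c) U)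
  nt3 : NT s w (s :: (M ++ [w])) (onE (rE E c) (U ∪ {s, w})) (onF (rF F c) (U ∪ {s, w}))
  nt4 : NT a b (a :: (mid ++ w :: Q)) (rE (offE (rE E c) U) s) (rF (offF (rF F c) U) s)
  ns : ∀ x, offE (rE E c) U s x ↔ x ∈ a :: (mid ++ [w])
  chs : (a :: (mid ++ [w])).IsChain (fun x y => offF (rF F c) U x y s)
  fs : ∀ x y, offF (rF F c) U x y s → Con (a :: (mid ++ [w])) x y

/-- The corner `a` has only one inner neighbour `s`; `(E', F')` is the triangulated triangle without
`s`, where `a` takes the place of `s`. -/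
structure Hub {V : Type} [Fintype V] (a b c : V) (E : V → V → Prop) (F : V → V → V → Prop)
    (s : V) (E' : V → V → Prop) (F' : V → V → V → Prop) : Prop where
  nt : NT a b [a, c, b] E' F'
  sa : s ≠ a
  sb : s ≠ b
  sc : s ≠ c
  iso : ∀ x, ¬ E' s x
  rel : ∀ x, Rel E x ↔ x = s ∨ Rel E' x
  f0 : ∀ x y z, F x y z → x ≠ a → y ≠ a → z ≠ a → F' (ren s a x) (ren s a y) (ren s a z)
  f1 : ∀ x y, F x y a → (x = b ∧ y = s) ∨ (x = s ∧ y = c)

/-- A cluster `K` at the corner `c`, along the side `c a`.  `(E₁, F₁)` is the triangulated triangle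
after the contraction of `K` into `c`, `(E₂, F₂)` is the triangulated triangle after the contraction
of all the other inner vertices into `b`. -/
structure Cut {V : Type} [Fintype V] (a b c : V) (E : V → V → Prop) (F : V → V → V → Prop)
    (K : Set V) (E₁ : V → V → Prop) (F₁ : V → V → V → Prop) (E₂ : V → V → Prop)
    (F₂ : V → V → V → Prop) : Prop where
  nt1 : NT a b [a, c, b] E₁ F₁
  nt2 : NT a b [a, c, b] E₂ F₂
  sub : K ⊆ Inn a b c E
  ne : K.Nonempty
  ne' : (Inn a b c E \ K).Nonempty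
  inn1 : Inn a b c E₁ = Inn a b c E \ K
  inn2 : Inn a b c E₂ = K
  r1 : ∀ x y z, F x y z → ¬ Two (K ∪ {c}) x y z → F₁ (th1 c K x) (th1 c K y) (th1 c K z)
  r2 : ∀ x y z, F x y z → Two (K ∪ {c}) x y z →
    F₂ (th2 a b c K x) (th2 a b c K y) (th2 a b c K z)

/-! ## Placements -/

/-- The placement `f` is good for the triangulated triangle. -/
structure GdT {V : Type} (a b c : V) (E : V → V → Prop) (F : V → V → V → Prop)
    (f : V → ℝ × ℝ) : Prop where
  gp : ∀ x y z, Rel E x → Rel E y → Rel E z → x ≠ y → x ≠ z → y ≠ z → o (f x) (f y) (f z) ≠ 0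
  tri : 0 < o (f a) (f b) (f c)
  ins : ∀ x ∈ Inn a b c E, 0 < o (f a) (f b) (f x) ∧ 0 < o (f b) (f c) (f x) ∧
    0 < o (f c) (f a) (f x)
  fac : ∀ x y z, F x y z → 0 < o (f x) (f y) (f z)

/-- The positions are `0, 1, ..., k + 1`; `D` is the depth of the positions `1, ..., k`, the depth of
the positions `0` and `k + 1` is minus infinity.  `i j` is an edge if all positions between `i` and
`j` are deeper than `i` and deeper than `j`. -/
def Ed (k : ℕ) (D : ℕ → ℕ) (i j : ℕ) : Prop :=
  ∀ l, i < l → l < j → (1 ≤ i → D i < D l) ∧ (j ≤ k → D j < D l)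

/-- the vertex at the position `i`: `c` at `0`, `b` at `k + 1` -/
def ps {V : Type} (b c : V) (k : ℕ) (π : ℕ → V) (i : ℕ) : V :=
  if i = 0 then c else if i ≤ k then π i else b

/-- The vertices `π 1, ..., π k` (all elements of `I`) are sorted around the corner `a`, from `c` to
`b`, and below every edge `i j` the positions between `i` and `j` are on the side of `a`. -/
structure GdY {V : Type} (a b c : V) (I : Set V) (k : ℕ) (D : ℕ → ℕ) (f : V → ℝ × ℝ)
    (π : ℕ → V) : Prop where
  pin : ∀ i, 1 ≤ i → i ≤ k → π i ∈ I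
  pij : ∀ i j, 1 ≤ i → i ≤ k → 1 ≤ j → j ≤ k → π i = π j → i = j
  psu : ∀ x ∈ I, ∃ i, 1 ≤ i ∧ i ≤ k ∧ π i = x
  rad : ∀ i j, i < j → j ≤ k + 1 → 0 < o (f a) (f (ps b c k π j)) (f (ps b c k π i))
  low : ∀ i l j, i < l → l < j → j ≤ k + 1 → Ed k D i j →
    0 < o (f (ps b c k π j)) (f (ps b c k π i)) (f (ps b c k π l))

/-- the edges of the second graph: `0` is joined to `1, ..., k` -/
def YE (k : ℕ) (D : ℕ → ℕ) (i j : ℕ) : Prop :=
  (i = 0 ∧ 1 ≤ j ∧ j ≤ k) ∨ (j = 0 ∧ 1 ≤ i ∧ i ≤ k) ∨ (1 ≤ i ∧ i < j ∧ j ≤ k ∧ Ed k D i j) ∨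
    (1 ≤ j ∧ j < i ∧ i ≤ k ∧ Ed k D j i)

/-! ## Graphs -/

/-- one-page book embeddings: the vertices have different numbers and no two edges cross.  (A finite
graph has a one-page book embedding if and only if it is outerplanar.) -/
def OnePage {α : Type} (G : SimpleGraph α) : Prop :=
  ∃ r : α → ℕ, Function.Injective r ∧ ∀ a b c d, r a < r b → r b < r c → r c < r d →
    ¬ (G.Adj a c ∧ G.Adj b d)

end Pool.Agent.SGY
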