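import Pool.Agent.SGY.Defs

/-!
# Squad SGY: the statements of the modules, with complete proofs

Tools on main (all proved): `Pool/Agent/Helper56_SGP/CTR.lean` (namespace `Pool.Agent.SGP.H56`:
`con_left`, `con_right`, `con_split`, `uniq_split`, `con_pred`, `con_succ`, `chain_con`, `contour_nb`
every contour vertex has a neighbour, `two` a near-triangulation with contour `[a, b]` has only the
vertices `a`, `b`, and `ctr`), `Pool.Agent.SGP.H17.rmv : RmvStmt` (`Helper17_SGP/RMV.lean`),
`Pool.Agent.SGP.H81.con : ConStmt` (`Helper81_SGP/Cone.lean`), `Pool.Agent.SGP.H77.rot : RotStmt`,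
`Pool.Agent.SGE.H51.nta : NtaStmt`, `Pool.Agent.SGE.H51.ntb : NtbStmt`, `Pool.Agent.SGE.H36` (`Nt0Stmt`),
`Pool.Agent.SGE.H20.chd : ChdStmt`, `Pool.Agent.SGE.H20.below`.
-/

noncomputable section

namespace Pool.Agent.SGY

open Pool.Agent.SGE Pool.Agent.SGP

/-! ## Near-triangulations -/

/-- CHL: below a chord `u w` there is a contour vertex without chords.
PROOF.  This is `Pool.Agent.SGE.H20.below` (file `Pool/Agent/Helper20_SGE/Exv.lean`) with one more
piece of information: the lemma there gives `C = P' ++ p :: v :: q :: Q'`, no chords at `v`,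
`P.length ≤ P'.length`; add `Q.length ≤ Q'.length` (the same induction; in the case without recursion
`Q' = rest ++ Q`, in the case with recursion the new `Q` is `R2 ++ Q`-like, longer).  Then compare the
lists: `P' = P ++ M₁`, `Q' = M₂ ++ Q` (`List.append_eq_append_iff` or `take`/`drop`). -/
def ChlStmt : Prop := ∀ {V : Type} [Fintype V] {a b : V} {P M Q : List V} {u w : V}
  {E : V → V → Prop} {F : V → V → V → Prop}, NT a b (P ++ u :: (M ++ w :: Q)) E F → M ≠ [] →
  E u w → ∃ (M₁ : List V) (p v q : V) (M₂ : List V),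
    u :: (M ++ [w]) = M₁ ++ p :: v :: q :: M₂ ∧
    ∀ x ∈ P ++ u :: (M ++ w :: Q), E v x → x = p ∨ x = q

/-- CAP: a new vertex `v` above a contiguous part of the contour.
PROOF.  As `ConStmt` (file `Pool/Agent/Helper81_SGP/Cone.lean`, which is the case `P = Q = []`):
`NtaStmt` for the first edge of the part, then `NtbStmt` again and again.  `v` is not on the contour
(contour vertices have neighbours, `H56.contour_nb`). -/
def CapStmt : Prop := ∀ {V : Type} [Fintype V] {a b : V} {P mid Q : List V} {p q v : V}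
  {E : V → V → Prop} {F : V → V → V → Prop}, NT a b (P ++ p :: (mid ++ q :: Q)) E F →
  (∀ x, ¬ E v x) →
  NT a b (P ++ p :: v :: q :: Q) (cE E v (p :: (mid ++ [q]))) (cF F v (p :: (mid ++ [q])))

/-- SPL: a near-triangulation is split by a chord (or contour edge) `u w` into the part over the chord
(`U` and `u`, `w`) and the part without `U`.
PROOF.  Induction on `n` for all near-triangulations with `{x | Rel E x}.ncard ≤ n` (or on the `Finset`
card).  `M = []`: `U = ∅`; `offE E ∅ = E`, `offF F ∅ = F` (`funext`, `propext`); the last part is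
`Nt0Stmt` for `u ≠ w`, because `onE E (∅ ∪ {u, w}) x y ↔ (x = u ∧ y = w) ∨ (x = w ∧ y = u)` (`E u w`,
`sym`, `irr`) and `onF F (∅ ∪ {u, w})` is empty (a face has three different vertices by `fe`, `rot`,
`irr`).  `M ≠ []`: `ChlStmt` gives `u :: (M ++ [w]) = M₁ ++ p :: v :: q :: M₂`; so the contour is
`(P ++ M₁) ++ p :: v :: q :: (M₂ ++ Q)` and `RmvStmt` gives `mid` and the near-triangulation
`rE E v`, `rF F v` with the contour `(P ++ M₁) ++ p :: (mid ++ q :: (M₂ ++ Q))`.  Write
`M₁ ++ p :: (mid ++ q :: M₂) = u :: (M' ++ [w])` (the first element is `u`, the last element is `w`,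
and there are at least two).  `rE E v u w` holds (`v ≠ u, w`).  `v` is isolated now, so the induction
hypothesis gives `U'`; `U = insert v U'`.  `M ⊆ U`: an element of `M` is `v` or is in
`M₁ ++ [p]` or `q :: M₂`, so in `M'` (it is not `u`, `w`).  `offE (rE E v) U' = offE E (insert v U')`
and the same for `F` (`tauto`).  Neighbours of `v` are in `p :: (mid ++ [q]) ⊆ u :: (M' ++ [w])`, so in
`U' ∪ {u, w}`.  The last part: `CapStmt` for `v` and `M₁ ++ p :: (mid ++ q :: M₂)`; the relations are
equal: `onE E (insert v U' ∪ {u, w}) = cE (onE (rE E v) (U' ∪ {u, w})) v (p :: (mid ++ [q]))` by the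
third clause of `RmvStmt`, and for the faces by the last two clauses (`(p :: (mid ++ [q])).IsChain`
gives `F x y v` for every `Con (p :: (mid ++ [q])) x y`) and `NT.rot`. -/
def SplStmt : Prop := ∀ {V : Type} [Fintype V] {a b : V} {P M Q : List V} {u w : V}
  {E : V → V → Prop} {F : V → V → V → Prop}, NT a b (P ++ u :: (M ++ w :: Q)) E F → E u w →
  ∃ U : Set V, (∀ x ∈ M, x ∈ U) ∧ (∀ x ∈ P ++ u :: w :: Q, x ∉ U) ∧ (∀ x ∈ U, Rel E x) ∧
    (∀ x ∈ U, ∀ y, E x y → y ∈ U ∨ y = u ∨ y = w) ∧
    NT a b (P ++ u :: w :: Q) (offE E U) (offF F U) ∧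
    NT u w (u :: (M ++ [w])) (onE E (U ∪ {u, w})) (onF F (U ∪ {u, w}))

/-- MAP: renaming of the vertices.
PROOF.  Field by field; lists are mapped by `σ` (`List.isChain_map`, `List.Nodup.map`,
`List.mem_map`), `Tri` of a mapped list by induction on the list, `Con`/`Fan`/`Cyc` with the mapped
lists.  `hom`: apply it to `fun x y => Z (σ x) (σ y)` (`Equiv.sum_comp`) and take
`fun x y => A (σ.symm x) (σ.symm y)`.  `con`: `Relation.ReflTransGen.lift`. -/
def MapStmt : Prop := ∀ {V : Type} [Fintype V] {a b : V} {C : List V} {E : V → V → Prop}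
  {F : V → V → V → Prop}, NT a b C E F → ∀ σ : Equiv.Perm V,
  NT (σ a) (σ b) (C.map σ) (fun x y => E (σ.symm x) (σ.symm y))
    (fun x y z => F (σ.symm x) (σ.symm y) (σ.symm z))

/-- PRE: the first state of the decomposition.
PROOF.  `RmvStmt` for `c` (`P = Q = []`, `p = a`, `v = c`, `q = b`): `mid₁`, the near-triangulation
`rE E c`, `rF F c` with contour `a :: (mid₁ ++ [b])`, `nc`, `ch`, `fc`.  `mid₁ ≠ []` as in
`H56.ctr` (lemma `two`).  So `a :: (mid₁ ++ [b]) = a :: s :: R`, `R ≠ []`, `s ≠ b` (no repetition).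
`s` is adjacent to the first element of `R` (`Fan` at `s`: the last element of the list).  Let `w` be
the last element of `R` with `E s w`: `R = M ++ w :: Q`, `E s w`, `¬ E s x` for `x ∈ Q`.  `w ≠ c`,
`s ≠ c` because contour vertices of `rE E c` have neighbours.  `SplStmt` with `P = [a]`, `u = s`: `U`;
`uc` because all elements of `U` have `Rel (rE E c)`.  `nt4`, `ns`, `chs`, `fs`: `RmvStmt` for `nt2`,
`P = []`, `p = a`, `v = s`, `q = w`; no chords at `s` by `sq` and `irr`. -/
def PreStmt : Prop := ∀ {V : Type} [Fintype V] {a b c : V} {E : V → V → Prop}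
  {F : V → V → V → Prop}, NT a b [a, c, b] E F → (Inn a b c E).Nonempty →
  ∃ (s w : V) (M Q mid : List V) (U : Set V), Pre a b c E F s w M Q mid U

/-- DE1: the contraction of `K = insert s U` into `c`.
PROOF.  `Z = a :: (mid ++ w :: Q)`.  `ConStmt` for `nt4` and `c` (isolated, not in `Z` because contour
vertices have neighbours).  All elements of `Z` are outside `K ∪ {c}` and have `Rel E`
(`H56.contour_nb nt4`).
`Inn`: let `x ≠ a, b, c`.  If `E₁ x y`: `x ∉ K` and `Rel E x` by unfolding (first case: `E x y`,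
`x ≠ s`, `x ∉ U`; second case `x = c` impossible; third case `x ∈ Z`).  If `E x y` and `x ∉ K`: if
`y = c` then `x ∈ a :: s :: (M ++ w :: Q)` (`nc`), `x ≠ s`, `x ∉ M`, so `x ∈ Z`, `E₁ x c`; if `y ∈ U`
then `x = w` by `ucl` for `y`, `x ∈ Z`; if `y = s` then `x ∈ a :: (mid ++ [w])` by `ns`, `x ∈ Z`;
otherwise `E₁ x y` by the first case.
Faces: `F x y z`, at most one of the three is in `K ∪ {c}`.  None: first case of `cF`.  Exactly one:
rotate so that it is `z` (`NT.rot` of both triangulations).  `z = c`: `Con (a :: s :: (M ++ w :: Q)) x y`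
(`fc`) with `x, y ∉ K`, so neither is `s` or in `M`, so `Con (w :: Q) x y`, `Con Z x y`, and
`F₁ x y c`.  `z ∈ U`: `E z x` and `E z y` give `x = w = y` by `ucl`, but `E x y`, contradiction to
`irr`.  `z = s`: `offF (rF F c) U x y s`, `Con (a :: (mid ++ [w])) x y` (`fs`), `Con Z x y`,
`F₁ x y c`. -/
def De1Stmt : Prop := ∀ {V : Type} [Fintype V] {a b c s w : V} {M Q mid : List V} {U : Set V}
  {E : V → V → Prop} {F : V → V → V → Prop}, Pre a b c E F s w M Q mid U →
  ∃ (E₁ : V → V → Prop) (F₁ : V → V → V → Prop), NT a b [a, c, b] E₁ F₁ ∧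
    Inn a b c E₁ = Inn a b c E \ insert s U ∧
    ∀ x y z, F x y z → ¬ Two (insert s U ∪ {c}) x y z →
      F₁ (th1 c (insert s U) x) (th1 c (insert s U) y) (th1 c (insert s U) z)

/-- DE2: the contraction of the inner vertices outside `K = insert s U` into `b`.
PROOF.  `E₃, F₃` = the relations of `nt3`.  `ConStmt` for `nt3` and `c`:
`NT s w [s, c, w] (cE E₃ c (s :: (M ++ [w]))) (cF F₃ c (s :: (M ++ [w])))`.  `MapStmt` with
`σ = Equiv.swap w b`: `NT s b [s, c, b] E₄ F₄` (`s`, `c` are fixed: `s ≠ w` by `irr`, `s ≠ b`,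
`c ≠ w, b`).  `a` is isolated in `E₄` (`a ∉ U ∪ {s, w, c}`, `a ≠ b`, so `σ a = a`).  `RotStmt`:
`NT b c [b, s, c] E₄ F₄`.  `NtaStmt` (`P = []`, `p = b`, `q = s`, `v = a`): contour `[b, a, s, c]`,
faces `addF F₄ b s a`.  `NtbStmt` (`P = [b]`, `p = a`, `v = s`, `q = c`, `Q = []`; `a` is adjacent to
`b` and `s` only): contour `[b, a, c]`, faces `addF (addF F₄ b s a) a s c`.  `RotStmt` twice:
`NT a b [a, c, b] E₂ F₂`.
`Inn a b c E₂ = insert s U`: a vertex `≠ a, b, c` with an edge of `E₂` is in `U ∪ {s}` (`σ`-images of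
elements of `U ∪ {s, w}`); `x ∈ U` has `E x y` with `y ∈ U ∪ {s, w, c}` (`ur`, `ucl`): if `y ≠ c` it is
an edge of `E₃`, if `y = c` then `x ∈ a :: s :: (M ++ w :: Q)`, so `x ∈ M` by `uo`, an edge of the
cone; `s` is joined to `c`.
Faces: `F x y z`, two of them in `K ∪ {c}`.  (i) `a` is one of them: rotate, `F x y a` with
`x, y ∈ K ∪ {c}`; neither is in `U` (`E x a`, `ucl`, `a ∉ U`, `a ≠ s, w, c`), so `{x, y} = {s, c}`;
`F c s a` gives `F s a c`, `Con (a :: s :: _) s a`, impossible without repetition; `F s c a` is in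
`F₂` (`th2` fixes `a, s, c`).  (ii) no vertex is `a`.  Then all three are in `U ∪ {s, w} ∪ {c}`: let
two of them be in `K ∪ {c}` and `t` the third one; if one of the two is in `U`: `ucl`; otherwise the
two are `s` and `c`, and `F s c t` or `F c s t`, so `Con (a :: s :: (M ++ w :: Q)) t s` or `.. s t` by
`fc` and `rot`: `t = a` (excluded) or `t` is the first element of `M ++ w :: Q`.  If no vertex is `c`:
`F₃ x y z`.  If `z = c` (rotate): `Con (a :: s :: (M ++ w :: Q)) x y` and `x, y ∈ U ∪ {s, w}` gives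
`Con (s :: (M ++ [w])) x y` (`x ≠ a`; if `x` was `w` or in `Q` then `y ∈ Q`, not in `U ∪ {s, w}`).
So `x y z` is a face of the cone, and `th2 a b c K` agrees with `σ` on `U ∪ {s, w, c}`
(`th2 w = b = σ w`). -/
def De2Stmt : Prop := ∀ {V : Type} [Fintype V] {a b c s w : V} {M Q mid : List V} {U : Set V}
  {E : V → V → Prop} {F : V → V → V → Prop}, Pre a b c E F s w M Q mid U →
  ∃ (E₂ : V → V → Prop) (F₂ : V → V → V → Prop), NT a b [a, c, b] E₂ F₂ ∧
    Inn a b c E₂ = insert s U ∧
    ∀ x y z, F x y z → Two (insert s U ∪ {c}) x y z →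
      F₂ (th2 a b c (insert s U) x) (th2 a b c (insert s U) y) (th2 a b c (insert s U) z)

/-- DE3: the case in which `a` has only one inner neighbour.
PROOF.  `w = b`, `Q = mid = []`: the neighbours of `c` are `a :: s :: (M ++ [b])`, `nt4` is a
near-triangulation with contour `[a, b]`, so (`H56.two`) it has only the vertices `a`, `b` and no
faces.  `ConStmt` for `nt3` and `c`: `NT s b [s, c, b] E₅ F₅`.  `MapStmt` with `σ = Equiv.swap s a`:
`NT a b [a, c, b] E' F'`.  `iso`: `E' s x` is `E₅ a (σ x)`, and `a` is isolated in `E₅`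
(`a ∉ U ∪ {s, b}`, `a ≠ c`).  `rel`: the vertices with `Rel E` are `a, b, c, s` and `U` (if `E x y`
and `x ∉ U ∪ {s, c}`: if `y = c` use `nc`, if `y ∈ U` use `ucl`, if `y = s` use `ns`, otherwise it is
an edge of `nt4`); the vertices with `Rel E'` are `a, b, c` and `U`.
`f0`: a face without `a` is a face of the cone: if `z = c` (rotate) then
`Con (a :: s :: (M ++ [b])) x y`, `x, y ≠ a`, so `Con (s :: (M ++ [b])) x y`; without `c`: if one
vertex is in `U` then all are in `U ∪ {s, b}` (`ucl`), a face of `nt3`; if none is in `U`: if `z = s`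
(rotate) then `Con [a, b] x y` by `fs`, `x = a`, excluded; otherwise a face of `nt4`, impossible.
`ren s a x = σ x` for `x ≠ a`.
`f1`: `F x y a`: `x = c`: `F y a c` (`rot`), `Con (a :: _) y a`, impossible (no repetition, `a` is the
first element); `y = c`: `F a x c`, `Con (a :: s :: _) a x`, `x = s`; otherwise `x, y ∉ U` (`ucl`):
`x = s`: `F y a s`, `Con [a, b] y a` impossible; `y = s`: `F a x s`, `Con [a, b] a x`, `x = b`; none is
`s`: a face of `nt4`, impossible. -/
def De3Stmt : Prop := ∀ {V : Type} [Fintype V] {a b c s : V} {M : List V} {U : Set V}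
  {E : V → V → Prop} {F : V → V → V → Prop}, Pre a b c E F s b M [] [] U →
  ∃ (E' : V → V → Prop) (F' : V → V → V → Prop), Hub a b c E F s E' F'

/-- DEC: the decomposition.
PROOF.  `PreStmt`.  `K = insert s U ⊆ Inn a b c E` (`s ≠ a` by `nt1.nd`; `U`: `ur`, `uo`, `uc`; `b` is
the last element of `w :: Q`).  If `Inn a b c E \ K` is not empty: `Cut` by `De1Stmt`, `De2Stmt`.  If
it is empty: the elements of `a :: (mid ++ w :: Q)` are contour vertices of `nt4`, so they have
`Rel E` and are outside `K ∪ {c}`; the elements of `mid ++ w :: Q` are different from `a` (no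
repetition), so they must be `b`; no repetition gives `mid = []`, `w = b`, `Q = []`; `De3Stmt`. -/
def DecStmt : Prop := ∀ {V : Type} [Fintype V] {a b c : V} {E : V → V → Prop}
  {F : V → V → V → Prop}, NT a b [a, c, b] E F → (Inn a b c E).Nonempty →
  (∃ (s : V) (E' : V → V → Prop) (F' : V → V → V → Prop), Hub a b c E F s E' F') ∨
  ∃ (K : Set V) (E₁ : V → V → Prop) (F₁ : V → V → V → Prop) (E₂ : V → V → Prop)
    (F₂ : V → V → V → Prop), Cut a b c E F K E₁ F₁ E₂ F₂

/-! ## Geometry -/

/-- GLU: two placements are glued: `K` becomes a small flat cluster at the corner `c`, along the side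
`c a`.
PROOF.  Write `a, b, c` for `f₁ a, f₁ b, f₁ c` and `h = a - c`, `e = b - c` (`det h e > 0`, because
`o c a b > 0`).  For `x ∈ K` let `γ_x = o (f₂ a) (f₂ b) (f₂ x)`, `α_x = o (f₂ b) (f₂ c) (f₂ x)`,
`β_x = o (f₂ c) (f₂ a) (f₂ x)` (all `> 0`), `v_x = α_x / γ_x`, `u_x = β_x / γ_x`; for `x = c` let
`u_c = v_c = 0`.  `g x = c + ε² u_x e + ε v_x h` for `x ∈ K`, `g x = f₁ x` for `x ∉ K`
(`g c = f₁ c` agrees with the formula).  For every triple `x, y, z ∈ R` the number
`o (g x) (g y) (g z)` is a polynomial in `ε`; it is positive for all small `ε > 0` if the hypothesis of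
the rule is satisfied (`V` is finite: `Filter.eventually_all` in `𝓝[>] 0`):
(0) none or one in `K ∪ {c}`: the limit for `ε → 0` is `o` of the `f₁ (th1 c K _)`, positive.
(3) all three in `K ∪ {c}`: the number is
`ε³ (det h e) ((v_y - v_x) (u_z - u_x) - (u_y - u_x) (v_z - v_x))`, and
`o (f₂ x) (f₂ y) (f₂ z) * δ² = γ_x γ_y γ_z` times the same bracket, where
`δ = o (f₂ a) (f₂ b) (f₂ c) > 0` (`γ_c = δ`, `α_c = β_c = 0`; barycentric coordinates: check with
`unfold o; field_simp; ring` or prove first `o x y z * δ² = det` of the matrix of the rows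
`(α, β, γ)`).
(2a) `x, y ∈ K ∪ {c}`, `z = a` (up to rotation): `o (g x) (g y) a = o a (g x) (g y)
= ε² (det h e) ((u_x - u_y) - ε (u_x v_y - u_y v_x))`, and `o (f₂ a) (f₂ x) (f₂ y)` has the sign of
`β_x γ_y - β_y γ_x`, that is of `u_x - u_y`.
(2b) `x, y ∈ K ∪ {c}`, `z ∉ K ∪ {a, c}`, `th2 z = b`: `f₁ z = c + X e + Y h` with
`X = o c a (f₁ z) / det h e > 0` (hypothesis; for `z = b` it is `1`), and
`o (f₁ z) (g x) (g y) = ε (det h e) (X (v_y - v_x) + ε (...))`, and `o (f₂ b) (f₂ x) (f₂ y)` has the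
sign of `α_y γ_x - α_x γ_y`, that is of `v_y - v_x`. -/
def GluStmt : Prop := ∀ {V : Type} [Fintype V] {a b c : V} (K R : Set V) (f₁ f₂ : V → ℝ × ℝ),
  a ≠ b → a ≠ c → b ≠ c → a ∉ K → b ∉ K → c ∉ K →
  0 < o (f₁ a) (f₁ b) (f₁ c) → 0 < o (f₂ a) (f₂ b) (f₂ c) →
  (∀ x ∈ R, x ∉ K → x ≠ a → x ≠ c → 0 < o (f₁ c) (f₁ a) (f₁ x)) →
  (∀ x ∈ K, 0 < o (f₂ a) (f₂ b) (f₂ x) ∧ 0 < o (f₂ b) (f₂ c) (f₂ x) ∧
    0 < o (f₂ c) (f₂ a) (f₂ x)) →
  ∃ g : V → ℝ × ℝ, ∀ x y z, x ∈ R → y ∈ R → z ∈ R →
    (¬ Two (K ∪ {c}) x y z → 0 < o (f₁ (th1 c K x)) (f₁ (th1 c K y)) (f₁ (th1 c K z)) →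
      0 < o (g x) (g y) (g z)) ∧
    (Two (K ∪ {c}) x y z →
      0 < o (f₂ (th2 a b c K x)) (f₂ (th2 a b c K y)) (f₂ (th2 a b c K z)) →
      0 < o (g x) (g y) (g z))

/-- FPL: if all faces are positive then the edges do not cross.
PROOF.  Let `x y`, `z t` be edges which cross; exchange `z` and `t` such that
`o x y z > 0 > o x y t`; then `o z t y > 0 > o z t x` (the four numbers are related:
`o x y z - o x y t = o z t y - o z t x` and the signs of a crossing).
(A) Every directed edge `p q` with `E p q` has a face `F p q r` on its left, except `(b, a)`, `(a, c)`,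
`(c, b)`: inner vertices by `int` (`Cyc`), corners by the lists of `Fan` (`bd` is `Fan b a c`,
`Fan a c b`, `Fan c b a`; the last element of the list has no face, and `∀ z, ¬ F w y z`).  `(x, y)` is
not one of the exceptions, because no vertex is on the left of `(b, a)`, `(a, c)`, `(c, b)` (`ins`,
`tri`), but `z` is on the left of `(x, y)`.  The same for `(z, t)` and `y`.  So there are `w`, `r`
with `F x y w`, `F z t r`.
(B) Choose a point `P` near the crossing point `X`, on the left of `x y` and on the left of `z t`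
(for example `X + ε (d₁ + θ d₂)` with `d₁ = y - x`, `d₂ = z - t`..., such that `P` is on the left of
both), strictly inside the triangles `x y w` and `z t r` (`X` is in the open segments `x y` and `z t`),
and such that `P` is on no line through two different vertices with `Rel E` and on no vertical line
through such a vertex (choose `θ` outside a finite set, then `ε` small outside a finite set).
(C) Crossing numbers: for `u ≠ v` let `ℓ u = P.1 - (f u).1` and
`c u v = 1` if `ℓ u > 0`, `ℓ v < 0`, `o P u v > 0`... precisely: `χ u v = 1` if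
`0 < ℓ u ∧ 0 < o P u v ∧ ℓ v < 0`, `χ u v = -1` if `ℓ u < 0 ∧ o P u v < 0 ∧ 0 < ℓ v`, `χ u v = 0`
otherwise.  `χ v u = - χ u v`.  For a triangle `u v w` with `o u v w > 0` and `P` generic:
`χ u v + χ v w + χ w u = 1` if `P` is inside (`o P u v, o P v w, o P w u > 0`), `= 0` otherwise.
[Proof: the identities `o P u v + o P v w + o P w u = o u v w` and
`ℓ u * o P v w + ℓ v * o P w u + ℓ w * o P u v = 0`; the 64 sign patterns of
`ℓ u, ℓ v, ℓ w, o P u v, o P v w, o P w u`: in each of them either the claim holds by `simp` or one of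
the two identities is violated.]
(D) Sum of `χ u v` over all `(u, v, w)` with `F u v w`: by `fn` and (A) it is the sum of `χ u v` over
all `(u, v)` with `E u v` except the three, that is (antisymmetry)
`0 - χ b a - χ a c - χ c b = χ a b + χ b c + χ c a ≤ 1`.  By `rot` the sums of `χ v w` and `χ w u`
over `F` are the same, so the number of `(u, v, w)` with `F u v w` and `P` inside is at most `3`.  But
the three rotations of `(x, y, w)` and the three rotations of `(z, t, r)` are six such triples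
(different: `x, y, z, t` are four different vertices).  Contradiction. -/
def FplStmt : Prop := ∀ {V : Type} [Fintype V] {a b c : V} {E : V → V → Prop}
  {F : V → V → V → Prop} {f : V → ℝ × ℝ}, NT a b [a, c, b] E F → GdT a b c E F f →
  ∀ x y z t, E x y → E z t → ¬ Xs (f x) (f y) (f z) (f t)

/-! ## The steps -/

/-- HST: the step of the case `Hub`.  `g = Function.update f s X`, `X` near `a` in the gap between the
positions `m - 1` and `m`; `m` is a deepest position.
PROOF.  `p = ps b c k π' m`, `q = ps b c k π' (m - 1)`.  All positions are vertices with `Rel E'`,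
different from `a` and `s`; `Inn a b c E = insert s (Inn a b c E')`, `s ∉ Inn a b c E'` (`rel`, `iso`,
and `a, b, c` have `Rel E'`, `H56.contour_nb`).
`X` at `a`: for `i ≥ m` (numbering of `π'`) `o a (ps i) p ≥ 0` and `o a (ps i) q > 0` by `rad`
(`0` if `i = m`), so `o a (ps i) X > 0` by `Near.rt`; for `i ≤ m - 1` the same with `Near.lt`:
`o a X (ps i) > 0`.  In particular `o a b X > 0` and `o a X c > 0`.
`GdT`: `tri` clear; `gp`: a triple without `s` is old; a triple with `s` and without `a`: `Near.near`;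
with `s` and `a`: `Near.gen`.  `ins` for `s`: `o a b X > 0`, `o b c X > 0` (`near`: it has the sign of
`o b c a`), `o c a X = o a X c > 0`.  `fac`: faces with `a`: rotate so that `a` is the last one, `f1`:
`o b s a = o a b X > 0`, `o s c a = o a X c > 0`; faces without `a`: `f0`; if one vertex is `s` rotate
it to the first place: `F' a y z` gives `o a y z > 0` and `near` gives `o X y z > 0`.
`GdY`: the numbering: `ps b c (k + 1) π i = ps b c k π' i` for `i < m`, `= s` for `i = m`,
`= ps b c k π' (i - 1)` for `i > m`.  `rad`: by `rad` and the two facts above.  `low` for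
`i < l < j`: `i ≠ m` (if `i = m` then `1 ≤ i`, `D m < D l`, but `D l ≤ D m`; note `l ≤ k + 1`),
`j ≠ m` in the same way (`m ≤ k + 1`).  `Ed (k + 1) D i j` gives `Ed k D' i' j'` for the old numbers
(`D' i = D i` for `i < m`, `D' i = D (i + 1)` for `i ≥ m`).  `l ≠ m`: old `low`.  `l = m`:
`o (ps j) (ps i) X > 0` by `near`, because `o (ps j) (ps i) a = o a (ps j) (ps i) > 0` by `rad`. -/
def HstStmt : Prop := ∀ {V : Type} [Fintype V] [DecidableEq V] {a b c s : V}
  {E E' : V → V → Prop} {F F' : V → V → V → Prop} {k m : ℕ} {D D' : ℕ → ℕ} {f : V → ℝ × ℝ}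
  {π' π : ℕ → V} {X : ℝ × ℝ}, NT a b [a, c, b] E F → Hub a b c E F s E' F' →
  GdT a b c E' F' f → GdY a b c (Inn a b c E') k D' f π' →
  1 ≤ m → m ≤ k + 1 → (∀ i, 1 ≤ i → i ≤ k + 1 → D i ≤ D m) →
  (∀ i, i < m → D' i = D i) → (∀ i, m ≤ i → D' i = D (i + 1)) →
  (∀ i, i < m → π i = π' i) → π m = s → (∀ i, m < i → π i = π' (i - 1)) →
  Near a (ps b c k π' m) (ps b c k π' (m - 1)) (Rel E') f X →
  GdT a b c E F (Function.update f s X) ∧
    GdY a b c (Inn a b c E) (k + 1) D (Function.update f s X) π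

/-- CST: the step of the case `Cut`: the placement `g` satisfies the two rules of `GluStmt`.
PROOF.  Let `c' = K ∪ {c}`.  `a, b ∉ c'`.  If `x ∉ K` then `th1 x = x`; `th2` fixes `K`, `a`, `b`,
`c`, and sends everything else to `b`.
`tri`: rule 1 (`Two` is false).  `ins`, `x ∈ K`: `(a, b, x)` rule 1 (`th1 x = c`), `(b, c, x)` and
`(c, a, x)` rule 2 and `ins` of `f₂` (`x ∈ Inn a b c E₂`).  `x ∉ K`: rule 1 three times.
`fac`: `r1` or `r2` and the rules.  `gp`: three different vertices `x, y, z` with `Rel E`.  If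
`¬ Two`: the three `th1` are different and have `Rel E₁` (corners by `H56.contour_nb`,
`x ∈ Inn a b c E \ K = Inn a b c E₁`), so `o (f₁ ..)` is not `0`; if it is positive use rule 1, if it
is negative use rule 1 for `(y, x, z)`.  If `Two`: the same with `th2`, `E₂`, rule 2 (two of the
vertices are in `c'` and fixed, the third one is fixed or goes to `b`).
`GdY`: positions `i ≤ κ` are in `c'` (`c` for `i = 0`), positions `i > κ` are not.
`rad` (`i < j`, triple `(a, ps j, ps i)`): `j ≤ κ`: rule 2 and `rad` of `f₂`.  `j > κ`: rule 1 and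
`rad` of `f₁` with the positions `j - κ` and `i - κ` (`0` if `i ≤ κ`: then `th1 (ps i) = c`).
`low` (`i < l < j`, triple `(ps j, ps i, ps l)`): `l ≤ κ`: `Two` holds, rule 2, positions `i`, `l`
and `min j (κ + 1)` of `f₂` (`th2 (ps j) = b` if `j > κ`), and `Ed κ D i (min j (κ + 1))` follows from
`Ed k D i j`.  `l > κ`: rule 1, positions `i - κ` (natural subtraction), `l - κ`, `j - κ` of `f₁`, and
`Ed (k - κ) D₁ (i - κ) (j - κ)` follows from `Ed k D i j`, where `D₁ i = D (i + κ)`. -/
def CstStmt : Prop := ∀ {V : Type} [Fintype V] {a b c : V}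
  {E E₁ E₂ : V → V → Prop} {F F₁ F₂ : V → V → V → Prop} {K : Set V} {k κ : ℕ} {D D₁ : ℕ → ℕ}
  {f₁ f₂ g : V → ℝ × ℝ} {π₁ π₂ π : ℕ → V}, NT a b [a, c, b] E F →
  Cut a b c E F K E₁ F₁ E₂ F₂ → κ ≤ k →
  GdT a b c E₁ F₁ f₁ → GdY a b c (Inn a b c E₁) (k - κ) D₁ f₁ π₁ →
  GdT a b c E₂ F₂ f₂ → GdY a b c (Inn a b c E₂) κ D f₂ π₂ →
  (∀ i, D₁ i = D (i + κ)) → (∀ i, i ≤ κ → π i = π₂ i) → (∀ i, κ < i → π i = π₁ (i - κ)) →
  (∀ x y z, Rel E x → Rel E y → Rel E z →
    (¬ Two (K ∪ {c}) x y z → 0 < o (f₁ (th1 c K x)) (f₁ (th1 c K y)) (f₁ (th1 c K z)) →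
      0 < o (g x) (g y) (g z)) ∧
    (Two (K ∪ {c}) x y z →
      0 < o (f₂ (th2 a b c K x)) (f₂ (th2 a b c K y)) (f₂ (th2 a b c K z)) →
      0 < o (g x) (g y) (g z))) →
  GdT a b c E F g ∧ GdY a b c (Inn a b c E) k D g π

/-- MAY: the main induction.
PROOF.  Strong induction on `k`, for all `a b c E F D`.  `k = 0`: as in
`Pool/Agent/Helper3_SGP/MAI.lean` (`f a = (0,0)`, `f b = (1,0)`, `f c = (0,1)`; only the corners have
`Rel E`, the only faces are the rotations of `(a, b, c)`); `rad` for `i = 0`, `j = 1`; `low` is empty.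
`k + 1`: `DecStmt`.  Case `Hub`: `(Inn a b c E').ncard = k`; let `m` be a position in `1, ..., k + 1`
with the largest `D m`, `D' i = D i` for `i < m`, `D (i + 1)` for `i ≥ m`; the induction hypothesis
gives `f`, `π'`; `InsStmt` with `(c, p, q) := (a, ps m, ps (m - 1))`, `R = Rel E'` gives `X` (the
hypotheses of `InsStmt`: `rad`, and `gp` for different points); `HstStmt`.  Case `Cut`: `κ = K.ncard`,
`0 < κ < k + 1`; the induction hypothesis for `E₁, F₁` with `D₁ i = D (i + κ)` and `k + 1 - κ`, and for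
`E₂, F₂` with `D` and `κ`; `GluStmt` with `R = {x | Rel E x}` (the hypothesis on `x ∉ K`: `x = b` by
`tri`, inner vertices by `ins` of `f₁`); `CstStmt`. -/
def MayStmt : Prop := ∀ (k : ℕ) {V : Type} [Fintype V] {a b c : V} {E : V → V → Prop}
  {F : V → V → V → Prop} (D : ℕ → ℕ), NT a b [a, c, b] E F → (Inn a b c E).ncard = k →
  ∃ f π, GdT a b c E F f ∧ GdY a b c (Inn a b c E) k D f π

/-- STC: the contraction step for `GdT`.
PROOF.  This is the first part of `Pool.Agent.SGP.StaStmt` (`Pool/Agent/Helper56_SGP/STA.lean`) without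
the crossings: copy the file, the hypothesis `Good` is used there only through `gp`, `tri`, `ins`,
`fac` in this part. -/
def StcStmt : Prop := ∀ {V : Type} [Fintype V] [DecidableEq V] {a b c : V} {E E' : V → V → Prop}
  {F F' : V → V → V → Prop} {P : List V} {p v q : V} {mid Q : List V} {f : V → ℝ × ℝ},
  NT a b [a, c, b] E F → Ctr a b c E F E' F' P p v q mid Q → GdT a b c E' F' f →
  0 < o (f c) (f p) (f q) ∧ ∀ X, Near c p q (Rel E') f X →
    GdT a b c E F (Function.update f v X)

/-- NOX: the edges of the second graph do not cross; the vertex `0` is at `X`, near the corner `a`.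
PROOF.  `p i = f (π i)` for `1 ≤ i ≤ k` (`= f (ps b c k π i)`), `A = f a`.  Two edges which share a
vertex: one of the numbers in `Xs` is `0` (or `0 * _`).
(1) Edges `i < j` and `i' < j'` with all four `≥ 1`, without common vertex.  By symmetry `i < i'`.  If
`j < i'`: for a point `x = (1 - t) p i + t p j`, `0 < t < 1` we have `o A (p j) x > 0`
(`o A (p j) (p i) > 0`), and for a point of the other segment `o A (p j) y < 0`
(`o A (p j) (p i') < 0`, `o A (p j) (p j') < 0`); segments which cross have a common point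
(`SegStmt`, proved).  Or directly by `nlinarith`.  If `i' < j < j'`: `Ed k D i j` with `l = i'` gives
`D j < D i'`, `Ed k D i' j'` with `l = j` gives `D i' < D j`, contradiction.  If `j' < j`:
`o (p j) (p i) (p i') > 0` and `o (p j) (p i) (p j') > 0` by `low`, so the first product in `Xs` is
positive.
(2) Edges `0 j` and `i' < j'`, `j ≠ i', j'`.  `X` near `A`: `o X y z * o A y z > 0`.  If `j < i'` or
`j > j'`: `o A (p j) (p i')` and `o A (p j) (p j')` have the same sign by `rad`, so
`o X (p j) (p i')`, `o X (p j) (p j')` have the same sign: no crossing.  If `i' < j < j'`: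
`o (p j') (p i') (p j) > 0` by `low` and `o (p j') (p i') X > 0` (`o A (p j') (p i') > 0` by `rad`): no
crossing.
(3) Edges `0 j`, `0 j'`: common vertex. -/
def NoxStmt : Prop := ∀ {V : Type} {a b c : V} {I : Set V} {k : ℕ} {D : ℕ → ℕ}
  {f : V → ℝ × ℝ} {π : ℕ → V} {X : ℝ × ℝ}, GdY a b c I k D f π →
  (∀ y ∈ I, ∀ z ∈ I, y ≠ z → 0 < o X (f y) (f z) * o (f a) (f y) (f z)) →
  ∀ i j i' j', YE k D i j → YE k D i' j' →
    ¬ Xs (if i = 0 then X else f (π i)) (if j = 0 then X else f (π j))
      (if i' = 0 then X else f (π i')) (if j' = 0 then X else f (π j'))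

/-- DEP: a set of pairs without crossings is a set of edges for some depths.
PROOF.  `D l` = the number of pairs `(i, j)` in `{1, ..., k}²` with `i < l < j` and `R i j`.  Let
`R i j`, `i < l < j`.  A pair `(x, y)` over `i` (`x < i < y`) has `y ≥ j` (otherwise `x < i < y < j` is
a crossing), so it is over `l`; and `(i, j)` is over `l` and not over `i`: `D i < D l`.  A pair
`(x, y)` over `j` has `x ≤ i`, so it is over `l`: `D j < D l`. -/
def DepStmt : Prop := ∀ (k : ℕ) (R : ℕ → ℕ → Prop),
  (∀ i j l m, 1 ≤ i → i < j → j < l → l < m → m ≤ k → ¬ (R i l ∧ R j m)) →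
  ∃ D : ℕ → ℕ, ∀ i j, 1 ≤ i → i < j → j ≤ k → R i j → Ed k D i j

/-- THY: the theorem.
PROOF.  `GexStmt` (proved, `Pool.Agent.SGP.H20.gex`) for `G₁`: `E, F` on `Fin n ⊕ Fin 3` with corners
`a = inr 0`, `b = inr 1`, `c = inr 2`; `Inn` is the range of `inl`.  `CtrStmt` (proved): `E', F'`, `x₀`
(the contracted vertex, called `v` in `Ctr`), `P, p, q, ...`; `(Inn a b c E').ncard = n - 1`.
The vertices `≠ v` of `G₂` sorted by their numbers `r`: positions `1, ..., n - 1`, `e : position →
vertex`; `R i j` := `1 ≤ i, j ≤ n - 1` and `e i`, `e j` adjacent.  `DepStmt`: `D`.  `RotStmt` twice: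
`NT c a [c, b, a] E' F'`; `MayStmt` for the corners `(c, a, b)`, `k = n - 1` and `D`: `f, π` with
`GdT c a b E' F' f` (so `GdT a b c E' F' f`: `o` is invariant under rotation,
`Inn c a b E' = Inn a b c E'`) and `GdY c a b ..`.  `StcStmt`, `InsStmt`: `X` with
`Near c p q (Rel E') f X`, `g = Function.update f x₀ X`, `GdT a b c E F g`.
`P` = the image of `g ∘ inl` (injective by `gp`: a third vertex `inr 0`).  `G₁`: `g ∘ inl` with
`DrwStmt` (`z = g (inr 0)`) and `FplStmt`.  `G₂`: `v ↦ X = g x₀`, `e i ↦ f (π i) = g (π i)`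
(`π i ≠ x₀` because `x₀` is isolated in `E'`), `DrwStmt` and `NoxStmt` (edges of `G₂` are `YE`-edges;
`Near.near` for `y, z ≠ c`), and every value is in `P`. -/
def ThyStmt : Prop := ∀ (n : ℕ) (G₁ G₂ : SimpleGraph (Fin n)), (∃ f, Draw G₁ f) →
  ∀ v : Fin n, OnePage (G₂.induce {u | u ≠ v}) →
  ∃ P : Finset (ℝ × ℝ), P.card = n ∧ (∃ f, Draw G₁ f ∧ ∀ u, f u ∈ P) ∧
    ∃ f, Draw G₂ f ∧ ∀ u, f u ∈ P

end Pool.Agent.SGY
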